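import Pool.Agent.Y517.NT.Pj

/-!
# Analytic parametrisation of the kernels of an analytic family of linear maps
-/

set_option autoImplicit false

open Set Filter Topology

noncomputable section

namespace Pool.Agent.Y288.NT

theorem t_PROJ : Pool.Agent.Y517.NT.S_PROJ := by
  intro F H G _ _ _ _ _ _ _ _ V A y₀ hV hy₀ hA
  have : CompleteSpace H := FiniteDimensional.complete ℝ H
  -- a projection onto the kernel at the point
  obtain ⟨K, hK⟩ : ∃ K : Submodule ℝ H, K = LinearMap.ker (A y₀).toLinearMap := ⟨_, rfl⟩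
  obtain ⟨p, hp⟩ := LinearMap.exists_leftInverse_of_injective K.subtype
    (Submodule.ker_subtype K)
  have hp' : ∀ h ∈ K, ((p h : K) : H) = h := by
    intro h hh
    have h1 := LinearMap.congr_fun hp ⟨h, hh⟩
    simp only [LinearMap.comp_apply, Submodule.subtype_apply, LinearMap.id_apply] at h1
    rw [h1]
  -- a left inverse
  have hle : K ≤ LinearMap.ker (LinearMap.id - K.subtype ∘ₗ p) := by
    intro h hh
    rw [LinearMap.mem_ker, LinearMap.sub_apply, LinearMap.id_apply, LinearMap.comp_apply,
      Submodule.subtype_apply, hp' h hh, sub_self]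
  have hle0 : K ≤ LinearMap.ker (A y₀).toLinearMap := hK.le
  obtain ⟨g, hg⟩ := LinearMap.exists_leftInverse_of_injective
    (K.liftQ (A y₀).toLinearMap hle0) (Submodule.ker_liftQ_eq_bot _ _ _ hK.ge)
  set P : G →ₗ[ℝ] H := (K.liftQ (LinearMap.id - K.subtype ∘ₗ p) hle) ∘ₗ g with hP
  have hPA : ∀ h, P (A y₀ h) = h - (p h : H) := by
    intro h
    have h1 := LinearMap.congr_fun hg (Submodule.Quotient.mk h)
    rw [LinearMap.comp_apply, Submodule.liftQ_apply, LinearMap.id_apply] at h1
    rw [hP, LinearMap.comp_apply]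
    have h2 : g (A y₀ h) = Submodule.Quotient.mk h := h1
    rw [h2, Submodule.liftQ_apply, LinearMap.sub_apply, LinearMap.id_apply, LinearMap.comp_apply,
      Submodule.subtype_apply]
  set π : H →L[ℝ] H := LinearMap.toContinuousLinearMap (K.subtype ∘ₗ p) with hπ
  have hπa : ∀ h, π h = (p h : H) := fun h => rfl
  set Pc : G →L[ℝ] H := LinearMap.toContinuousLinearMap P with hPc
  have hPca : ∀ x, Pc x = P x := fun x => rfl
  set B : F → H →L[ℝ] H := fun y => π + (ContinuousLinearMap.compL ℝ H G H Pc) (A y) with hB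
  have hBa : ∀ y h, B y h = (p h : H) + P (A y h) := fun y h => rfl
  have hBan : AnalyticOnNhd ℝ B V := by
    intro y hy
    refine analyticAt_const.add ?_
    exact ((ContinuousLinearMap.compL ℝ H G H Pc).analyticAt (A y)).comp (hA y hy)
  have hB0 : B y₀ = 1 := by
    ext h
    rw [hBa, hPA]
    simp
  refine ⟨V ∩ B ⁻¹' {x | IsUnit x}, fun y => Ring.inverse (B y) * π,
    hBan.continuousOn.isOpen_inter_preimage hV Units.isOpen, ⟨hy₀, ?_⟩, inter_subset_left, ?_, ?_⟩
  · change IsUnit (B y₀)
    rw [hB0]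
    exact isUnit_one
  · rintro y ⟨hy, hu⟩
    have hu' : IsUnit (B y) := hu
    have h1 : AnalyticAt ℝ (Ring.inverse : (H →L[ℝ] H) → (H →L[ℝ] H)) (B y) :=
      analyticAt_inverse hu'.unit
    exact (h1.comp (hBan y hy)).mul analyticAt_const
  · rintro y ⟨hy, hu⟩ hdim
    have hu' : IsUnit (B y) := hu
    symm
    refine Submodule.eq_of_le_of_finrank_le ?_ ?_
    · intro h hh
      refine ⟨h, ?_⟩
      have h1 : A y h = 0 := hh
      have h2 : B y h = π h := by rw [hBa, h1, map_zero, add_zero, hπa]
      change Ring.inverse (B y) (π h) = h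
      rw [← h2]
      have h3 := congrArg (fun T : H →L[ℝ] H => T h) (Ring.inverse_mul_cancel (B y) hu')
      exact h3
    · rw [hdim, ← hK]
      have h1 : LinearMap.range (Ring.inverse (B y) * π).toLinearMap ≤
          LinearMap.range ((Ring.inverse (B y)).toLinearMap ∘ₗ K.subtype) := by
        rintro _ ⟨h, rfl⟩
        exact ⟨p h, rfl⟩
      exact (Submodule.finrank_mono h1).trans (LinearMap.finrank_range_le _)

end Pool.Agent.Y288.NT
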